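import Mathlib
import Pool.Agent.J6H21.Steklov.Block
import Pool.Agent.J6H21.Steklov.Smooth

/-!
# Lower bounds for the Steklov zeta-invariants by the norms of the dyadic blocks and by Sobolev norms
(MP_ed7f76_gt, a stronger form of the inequality of Q1)

For every `k ≥ 2` there is `c > 0`, depending only on `k`, such that for every real-valued smooth
function `a` on the circle
`Z_k(a) ≥ c ∑_{j ≥ 1} 2^(j (2k+1)) (∑_{2^j ≤ n < 2^(j+1)} |â_n|²)^k`,
and for every real `s < 1 + 1 / (2k)` there is `C` with `(∑_{n ≥ 2} n^(2s) |â_n|²)^k ≤ C Z_k(a)`.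
The inequality of Q1, `Z_k(a) ≥ c ∑_{n ≥ 2} n^(2k+1) |â_n|^(2k)`, is the weaker form in which the
norms of the blocks in `ℓ²` are replaced by the norms in `ℓ^(2k)`.

Sketch. `Z_k(a) = Tr T^(2k) - Tr (T S)^(2k)` where `T_{m,n} = √(|m||n|) â_{n-m}` and `S` is the
diagonal of signs. A Schur basis of `T S` bounds the second trace by `Tr P^k`, `P` being the block
diagonal part of `H = T²`; a Bregman (Taylor with remainder) inequality gives
`Tr H^k - Tr P^k ≥ (k-1) Tr |D|^k`, `D = H - P`. The entries of `D` have second difference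
`2 â_p â_{s-p}` along the antidiagonals `p + q = s`, and testing against smooth bumps on dyadic
windows bounds `Tr |D|^k` from below.
-/

namespace Pool.Agent.Results.MP_ed7f76_gt.DyadicBlocksAndSobolevNorms

open Real
open scoped ContDiff

/-- The Fourier coefficient `â_n = (1/2π) ∫_0^{2π} a(θ) e^{-inθ} dθ`. -/
noncomputable def fourier (a : ℝ → ℝ) (n : ℤ) : ℂ :=
  1 / (2 * (π : ℂ)) *
    ∫ θ in (0 : ℝ)..(2 * π), (a θ : ℂ) * Complex.exp (-((n : ℂ) * θ * Complex.I))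

/-- The polynomial `f(n) = n (n + j₁) (n + j₁ + j₂) ⋯ (n + j₁ + ⋯ + j_{2k-1})`; the entries of
`j` are indexed by `Fin (2k)`, and the factor of index `i` is `n` plus the sum of the entries of
index `< i`. -/
def f {k : ℕ} (j : Fin (2 * k) → ℤ) (n : ℤ) : ℤ :=
  ∏ i : Fin (2 * k), (n + ∑ l ∈ Finset.Iio i, j l)

/-- The coefficient `N_{j₁…j_{2k}} = ∑_{n ∈ ℤ} (|f(n)| - f(n))` (a sum with finitely many nonzero
terms). -/
noncomputable def N {k : ℕ} (j : Fin (2 * k) → ℤ) : ℤ := ∑ᶠ n : ℤ, (|f j n| - f j n)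

/-- The zeta-invariant `Z_k(a) = ∑_{j₁+⋯+j_{2k}=0} N_{j₁…j_{2k}} â_{j₁} ⋯ â_{j_{2k}}`. -/
noncomputable def Z (k : ℕ) (a : ℝ → ℝ) : ℂ :=
  ∑' j : {j : Fin (2 * k) → ℤ // ∑ i, j i = 0}, (N j.1 : ℂ) * ∏ i, fourier a (j.1 i)

/-- The square of the norm of the dyadic block: `∑_{2^(j+1) ≤ n < 2^(j+2)} |â_n|²`. -/
noncomputable def block (a : ℝ → ℝ) (j : ℕ) : ℝ :=
  ∑ n ∈ Finset.Ico (2 ^ (j + 1)) (2 ^ (j + 2)), ‖fourier a ((n : ℕ) : ℤ)‖ ^ 2

/-- **Theorem.** For every `k ≥ 2` there is a constant `c > 0` depending only on `k` such that for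
every smooth real-valued function `a` on the circle (smooth `2π`-periodic function on `ℝ`), `Z_k(a)`
is real and
(1) `c ∑_{j ≥ 0} 2^((j+1)(2k+1)) (∑_{2^(j+1) ≤ n < 2^(j+2)} |â_n|²)^k ≤ Z_k(a)`;
(2) for every real `s < 1 + 1/(2k)` there is `C`, depending only on `k` and `s`, with
`(∑_{n ≥ 2} n^(2s) |â_n|²)^k ≤ C Z_k(a)`;
(3) in particular the inequality of Q1 holds. All series converge. -/
theorem result :
    ∀ k : ℕ, 2 ≤ k →
      (∃ c : ℝ, 0 < c ∧
        ∀ a : ℝ → ℝ, ContDiff ℝ ∞ a → Function.Periodic a (2 * π) →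
          (Summable fun j : {j : Fin (2 * k) → ℤ // ∑ i, j i = 0} =>
            (N j.1 : ℂ) * ∏ i, fourier a (j.1 i)) ∧
          (Z k a).im = 0 ∧
          (Summable fun j : ℕ => (2 ^ (j + 1) : ℝ) ^ (2 * k + 1) * block a j ^ k) ∧
          c * ∑' j : ℕ, (2 ^ (j + 1) : ℝ) ^ (2 * k + 1) * block a j ^ k ≤ (Z k a).re ∧
          (Summable fun n : ℕ =>
            ((n : ℝ) + 2) ^ (2 * k + 1) * ‖fourier a ((n : ℤ) + 2)‖ ^ (2 * k)) ∧
          c * ∑' n : ℕ, ((n : ℝ) + 2) ^ (2 * k + 1) * ‖fourier a ((n : ℤ) + 2)‖ ^ (2 * k)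
            ≤ (Z k a).re) ∧
      ∀ s : ℝ, s < 1 + 1 / (2 * k) → ∃ C : ℝ,
        ∀ a : ℝ → ℝ, ContDiff ℝ ∞ a → Function.Periodic a (2 * π) →
          (Summable fun n : ℕ => ((n : ℝ) + 2) ^ (2 * s) * ‖fourier a ((n : ℤ) + 2)‖ ^ 2) ∧
          (∑' n : ℕ, ((n : ℝ) + 2) ^ (2 * s) * ‖fourier a ((n : ℤ) + 2)‖ ^ 2) ^ k
            ≤ C * (Z k a).re := by
  intro k hk
  obtain ⟨k, rfl⟩ := Nat.exists_eq_add_of_le' hk
  have hC := J6H21.Steklov.Ck_pos k
  have hblk : ∀ (a : ℝ → ℝ) (j : ℕ),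
      J6H21.Steklov.blk (J6H21.Steklov.fc a) (2 ^ j) = block a j := by
    intro a j
    unfold J6H21.Steklov.blk block
    have h1 : 2 * 2 ^ j = 2 ^ (j + 1) := by ring
    have h2 : 4 * 2 ^ j = 2 ^ (j + 2) := by ring
    rw [h1, h2]
    rfl
  have hmain : ∀ a : ℝ → ℝ, ContDiff ℝ ∞ a → Function.Periodic a (2 * π) → ∀ J : ℕ,
      ∑ j ∈ Finset.range J, (4 * 2 ^ j : ℝ) ^ (2 * (k + 2) + 1) * block a j ^ (k + 2)
        ≤ 4 * J6H21.Steklov.Ck k * (Z (k + 2) a).re := by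
    intro a ha hp J
    have hs := J6H21.Steklov.fc_summable (2 * (k + 2) + 1) a ha hp
    have h1 := J6H21.Steklov.limit_blk k (J6H21.Steklov.fc a) (J6H21.Steklov.fc_conj a) hs J
    simp only [hblk] at h1
    exact h1
  have hbn : ∀ (a : ℝ → ℝ) (j : ℕ), 0 ≤ block a j := fun a j =>
    Finset.sum_nonneg fun _ _ => by positivity
  have hterm : ∀ a : ℝ → ℝ, ContDiff ℝ ∞ a → Function.Periodic a (2 * π) → ∀ j : ℕ,
      (4 * 2 ^ j : ℝ) ^ (2 * (k + 2) + 1) * block a j ^ (k + 2)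
        ≤ 4 * J6H21.Steklov.Ck k * (Z (k + 2) a).re := by
    intro a ha hp j
    refine le_trans ?_ (hmain a ha hp (j + 1))
    rw [Finset.sum_range_succ]
    have : 0 ≤ ∑ i ∈ Finset.range j, (4 * 2 ^ i : ℝ) ^ (2 * (k + 2) + 1) * block a i ^ (k + 2) :=
      Finset.sum_nonneg fun i _ => mul_nonneg (by positivity) (pow_nonneg (hbn a i) _)
    linarith
  refine ⟨⟨(4 * J6H21.Steklov.Ck k)⁻¹, by positivity, ?_⟩, ?_⟩
  · intro a ha hp
    have hs := J6H21.Steklov.fc_summable (2 * (k + 2) + 1) a ha hp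
    obtain ⟨h1, h2, h3⟩ := J6H21.Steklov.final_seq k (J6H21.Steklov.fc a)
      (J6H21.Steklov.fc_conj a) hs
    have h5 : ∀ J : ℕ, ∑ j ∈ Finset.range J,
        (2 ^ (j + 1) : ℝ) ^ (2 * (k + 2) + 1) * block a j ^ (k + 2) ≤
        4 * J6H21.Steklov.Ck k * (Z (k + 2) a).re := by
      intro J
      refine le_trans (Finset.sum_le_sum fun j _ => ?_) (hmain a ha hp J)
      refine mul_le_mul_of_nonneg_right (pow_le_pow_left₀ (by positivity) ?_ _)
        (pow_nonneg (hbn a j) _)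
      rw [pow_succ]
      have : (0 : ℝ) < 2 ^ j := by positivity
      linarith
    have h6 : ∀ j : ℕ, 0 ≤ (2 ^ (j + 1) : ℝ) ^ (2 * (k + 2) + 1) * block a j ^ (k + 2) :=
      fun j => mul_nonneg (by positivity) (pow_nonneg (hbn a j) _)
    refine ⟨?_, h1, summable_of_sum_range_le h6 h5, ?_, h2, h3⟩
    · refine Summable.of_norm ?_
      refine (J6H21.Steklov.summable_bound (even_two_mul _) _ hs).congr fun j => ?_
      rw [norm_mul, norm_prod]
      have h4 : ‖((J6H21.Steklov.Nc _ j.1 : ℤ) : ℂ)‖ = (J6H21.Steklov.Nc _ j.1 : ℝ) := by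
        rw [Complex.norm_intCast, abs_of_nonneg]
        exact_mod_cast J6H21.Steklov.Nc_nonneg (even_two_mul _) j.1
      rw [← h4]
      rfl
    · rw [inv_mul_le_iff₀ (by positivity)]
      exact Real.tsum_le_of_sum_range_le h6 h5
  · -- the Sobolev norms
    intro s hs
    obtain ⟨m, hm⟩ : ∃ m : ℝ, m = (k : ℝ) + 2 := ⟨_, rfl⟩
    have hm0 : 0 < m := by rw [hm]; positivity
    have hcast : ((k + 2 : ℕ) : ℝ) = m := by rw [hm]; push_cast; ring
    rw [hcast] at hs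
    -- we may assume `s ≥ 0`
    obtain ⟨u, hu⟩ : ∃ u : ℝ, u = max s 0 := ⟨_, rfl⟩
    have hu0 : 0 ≤ u := by rw [hu]; exact le_max_right _ _
    have hus : u < 1 + 1 / (2 * m) := by
      rw [hu]
      exact max_lt hs (by positivity)
    obtain ⟨e, he⟩ : ∃ e : ℝ, e = 2 + 1 / m - 2 * u := ⟨_, rfl⟩
    have he0 : 0 < e := by
      have : 2 * (1 / (2 * m)) = 1 / m := by field_simp
      rw [he]
      linarith
    obtain ⟨q, hq⟩ : ∃ q : ℝ, q = (2 : ℝ) ^ (-e) := ⟨_, rfl⟩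
    have hq0 : 0 < q := by rw [hq]; positivity
    have hq1 : q < 1 := by
      rw [hq]
      exact Real.rpow_lt_one_of_one_lt_of_neg (by norm_num) (by linarith)
    refine ⟨(1 - q)⁻¹ ^ (k + 2) * (4 * J6H21.Steklov.Ck k), ?_⟩
    intro a ha hp
    obtain ⟨W, hW⟩ : ∃ W : ℝ, W = 4 * J6H21.Steklov.Ck k * (Z (k + 2) a).re := ⟨_, rfl⟩
    have hW0 : 0 ≤ W := by
      have h1 := hterm a ha hp 0
      rw [← hW] at h1
      exact le_trans (mul_nonneg (by positivity) (pow_nonneg (hbn a 0) _)) h1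
    obtain ⟨V, hV⟩ : ∃ V : ℝ, V = W ^ (1 / m) := ⟨_, rfl⟩
    have hV0 : 0 ≤ V := by rw [hV]; exact Real.rpow_nonneg hW0 _
    have hVk : V ^ (k + 2) = W := by
      rw [hV, ← Real.rpow_natCast, ← Real.rpow_mul hW0, hcast, one_div, inv_mul_cancel₀ hm0.ne',
        Real.rpow_one]
    -- one block
    have hb : ∀ j : ℕ, (4 * 2 ^ j : ℝ) ^ (2 * u) * block a j ≤ q ^ j * V := by
      intro j
      have h1 := hterm a ha hp j
      rw [← hW] at h1
      obtain ⟨y, hy⟩ : ∃ y : ℝ, y = 4 * 2 ^ j := ⟨_, rfl⟩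
      have hy0 : 0 < y := by rw [hy]; positivity
      rw [← hy] at h1 ⊢
      have h2 : (y ^ (2 + 1 / m) * block a j) ^ (k + 2) ≤ V ^ (k + 2) := by
        rw [hVk, mul_pow]
        refine le_trans (le_of_eq ?_) h1
        congr 1
        rw [← Real.rpow_natCast (y ^ (2 + 1 / m)) (k + 2), ← Real.rpow_mul hy0.le,
          ← Real.rpow_natCast y (2 * (k + 2) + 1)]
        congr 1
        rw [hcast]
        push_cast
        rw [← hm]
        field_simp
      have h3 : y ^ (2 + 1 / m) * block a j ≤ V :=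
        le_of_pow_le_pow_left₀ (by omega) hV0 h2
      have h4 : y ^ (2 * u) = y ^ (-e) * y ^ (2 + 1 / m) := by
        rw [← Real.rpow_add hy0]
        congr 1
        rw [he]
        ring
      have h5 : y ^ (-e) ≤ q ^ j := by
        rw [hq, ← Real.rpow_natCast, ← Real.rpow_mul (by norm_num), mul_comm (-e),
          Real.rpow_mul (by norm_num), Real.rpow_natCast]
        refine Real.rpow_le_rpow_of_nonpos (by positivity) ?_ (by linarith)
        rw [hy]
        have : (0 : ℝ) < 2 ^ j := by positivity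
        linarith
      rw [h4, mul_assoc]
      exact mul_le_mul h5 h3 (mul_nonneg (by positivity) (hbn a j)) (by positivity)
    -- the partial sums
    have hsum : ∀ M : ℕ, ∑ n ∈ Finset.range M,
        ((n : ℝ) + 2) ^ (2 * s) * ‖fourier a ((n : ℤ) + 2)‖ ^ 2 ≤ (1 - q)⁻¹ * V := by
      intro M
      have h1 : ∑ n ∈ Finset.range M, ((n : ℝ) + 2) ^ (2 * s) * ‖fourier a ((n : ℤ) + 2)‖ ^ 2 ≤
          ∑ p ∈ Finset.Icc 2 (M + 2), ((p : ℕ) : ℝ) ^ (2 * u) * ‖fourier a ((p : ℕ) : ℤ)‖ ^ 2 := by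
        have h2 : ∑ n ∈ Finset.range M,
            ((n : ℝ) + 2) ^ (2 * s) * ‖fourier a ((n : ℤ) + 2)‖ ^ 2 ≤
            ∑ n ∈ Finset.range M, ((n + 2 : ℕ) : ℝ) ^ (2 * u) *
              ‖fourier a ((n + 2 : ℕ) : ℤ)‖ ^ 2 := by
          refine Finset.sum_le_sum fun n _ => ?_
          push_cast
          refine mul_le_mul_of_nonneg_right ?_ (by positivity)
          refine Real.rpow_le_rpow_of_exponent_le ?_ ?_
          · have : (0 : ℝ) ≤ n := Nat.cast_nonneg n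
            linarith
          · rw [hu]
            linarith [le_max_left s 0]
        refine h2.trans ?_
        have h3 : ∑ n ∈ Finset.range M, ((n + 2 : ℕ) : ℝ) ^ (2 * u) *
            ‖fourier a ((n + 2 : ℕ) : ℤ)‖ ^ 2 = ∑ p ∈ (Finset.range M).map (addRightEmbedding 2),
              ((p : ℕ) : ℝ) ^ (2 * u) * ‖fourier a ((p : ℕ) : ℤ)‖ ^ 2 := by
          rw [Finset.sum_map]
          rfl
        rw [h3]
        refine Finset.sum_le_sum_of_subset_of_nonneg ?_ fun _ _ _ => by positivity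
        intro p hp'
        obtain ⟨n, hn, rfl⟩ := Finset.mem_map.1 hp'
        rw [Finset.mem_range] at hn
        rw [Finset.mem_Icc, addRightEmbedding_apply]
        omega
      refine h1.trans ((J6H21.Steklov.dyadic_lower (M + 2) (fun p : ℕ => ((p : ℕ) : ℝ) ^ (2 * u) *
        ‖fourier a ((p : ℕ) : ℤ)‖ ^ 2) fun p => by positivity).trans ?_)
      have h2 : ∀ j : ℕ, ∑ p ∈ Finset.Ico (2 * 2 ^ j) (4 * 2 ^ j), ((p : ℕ) : ℝ) ^ (2 * u) *
          ‖fourier a ((p : ℕ) : ℤ)‖ ^ 2 ≤ q ^ j * V := by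
        intro j
        refine le_trans ?_ (hb j)
        rw [← hblk]
        unfold J6H21.Steklov.blk
        rw [Finset.mul_sum]
        refine Finset.sum_le_sum fun p hp' => ?_
        rw [Finset.mem_Ico] at hp'
        refine mul_le_mul_of_nonneg_right ?_ (by positivity)
        refine Real.rpow_le_rpow (by positivity) ?_ (by linarith)
        exact_mod_cast hp'.2.le
      refine (Finset.sum_le_sum fun j _ => h2 j).trans ?_
      rw [← Finset.sum_mul]
      refine mul_le_mul_of_nonneg_right ?_ hV0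
      have h3 := (summable_geometric_of_lt_one hq0.le hq1).sum_le_tsum
        (Finset.range (Nat.log 2 (M + 2))) fun i _ => by positivity
      rwa [tsum_geometric_of_lt_one hq0.le hq1] at h3
    have hnn : ∀ n : ℕ, 0 ≤ ((n : ℝ) + 2) ^ (2 * s) * ‖fourier a ((n : ℤ) + 2)‖ ^ 2 := fun n => by
      positivity
    refine ⟨summable_of_sum_range_le hnn hsum, ?_⟩
    have h1 := Real.tsum_le_of_sum_range_le hnn hsum
    have h2 := pow_le_pow_left₀ (tsum_nonneg hnn) h1 (k + 2)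
    refine h2.trans (le_of_eq ?_)
    rw [mul_pow, hVk, hW]
    ring

end Pool.Agent.Results.MP_ed7f76_gt.DyadicBlocksAndSobolevNorms
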